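import Pool.Agent.W935.SK.FinQ
import Pool.Agent.W935.SK.PrimeF
import Pool.Agent.W935.SK.BI2
import Pool.Agent.W403.SK.Sound
import Pool.Agent.W685.SK.Alg
import Pool.Agent.W678.SK.Q0
import Pool.Agent.W878.SK.Lowb
import Pool.Agent.H684R3.Smo.Done

set_option autoImplicit false

/-!
# The Skolem Problem for sequences with a prescribed zero

Let `c` be an integer recurrence of any order `d ≥ 2` with squarefree characteristic polynomial
that divides no polynomial `X ^ b - r`. For an integer `m`, positive or negative, consider the
hyperplane of all initial values for which the two-sided sequence vanishes at `m`. One errorless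
algorithm, valid for all linear recurrence sequences, which computes the set of all zeros, halts
for almost all initial values in each of these hyperplanes: for all but a proportion `H ^ (-δ)` of
the initial values bounded by `H`, a `p`-adic certificate with a prime `p ≤ (log H) ^ α` shows that
`m` is the only zero. For `m < 0` these are zero-free instances of the Skolem Problem for which
congruences alone give no certificate.

Proof idea. Let `p` be a prime for which the shift has small order `b` in the projective linear
group modulo `p`, and let `v` be maximal such that the `b`-th power of the shift is a scalar modulo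
`p ^ v`. If `p` divides no term with index not congruent to `m` modulo `b`, and `p ^ (v + 1)` does
not divide the term with index `m + b`, then the `p`-adic analytic function that interpolates the
terms with index congruent to `m` has no other zero. As `v` is maximal, this excludes only a small
proportion of the hyperplane modulo `p`, without any hypothesis on Wieferich primes. The power
saving comes from the second moment sieve of the starting result `PolylogCertificates`.
-/

namespace Pool.Agent.Results.MP_8d13b5_lc.PrescribedZero

open Polynomial Pool.Agent.H884R2.Sko Pool.Agent.H692R2.USS Pool.Agent.W935.SK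
open scoped Classical

theorem result :
    -- one algorithm for all integer linear recurrence sequences; its output is a list of naturals
    ∃ A : List (ℕ × ℕ) × List (ℕ × ℕ) →. List ℕ, Partrec A ∧
      -- it never errs: the output is the list of all zeros
      (∀ p u, IsLRS p u → ∀ L ∈ A p, ∀ n, u n = 0 ↔ n ∈ L) ∧
      -- every order and every recurrence with squarefree characteristic polynomial
      ∀ (d : ℕ) (hd : 2 ≤ d) (c : Fin d → ℤ), c ⟨d - 1, by omega⟩ ≠ 0 →
        Squarefree ((charPoly c).map (Int.castRingHom ℚ)) →
        (∀ b : ℕ, 1 ≤ b → ∀ r : ℤ, ¬ charPoly c ∣ X ^ b - C r) →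
        -- a certificate shows that `m` is the only zero, and the algorithm halts
        (∀ (a : Fin d → ℤ) (m : ℤ) (y : ℝ), (∃ w, IsBi c a w ∧ w m = 0) → HasCert c a m y →
          (∀ u, IsSeq c a u → ∀ n : ℕ, u n = 0 ↔ (n : ℤ) = m) ∧ (A (code c, code a)).Dom) ∧
        -- in every hyperplane `w_m = 0`, `m` an integer, all but a proportion `H ^ (-δ)` of the
        -- initial values bounded by `H` have a certificate with a prime `≤ (log H) ^ α`
        ∃ α δ : ℝ, 0 < α ∧ 0 < δ ∧ ∀ m : ℤ, ∃ H₀ : ℕ, ∀ H : ℕ, H₀ ≤ H →
          (((box (0 : Fin d → ℤ) H).filter (fun a => (∃ w, IsBi c a w ∧ w m = 0) ∧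
            ¬ HasCert c a m (Real.log H ^ α))).card : ℝ) ≤
          (H : ℝ) ^ (-δ) *
            (((box (0 : Fin d → ℤ) H).filter (fun a => ∃ w, IsBi c a w ∧ w m = 0)).card : ℝ) := by
  obtain ⟨A, hA, hA1, hA2⟩ := Pool.Agent.W685.SK.alg Pool.Agent.W403.SK.sound
  refine ⟨A, hA, hA1, ?_⟩
  intro d hd c hc hsq hnd
  refine ⟨?_, ?_⟩
  · intro a m y hw0 h
    refine ⟨fun u hu n => ?_, hA2 d (by omega) c a hc (halt bi2 (by omega) c hc a m y h)⟩
    rw [(isSeq_iff c a u).1 hu n]
    exact uniq Pool.Agent.W403.SK.sound bi2 (by omega) c hc a m y hw0 h n
  · obtain ⟨α, δ, hα, hδ, h⟩ := quant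
      (Pool.Agent.W678.SK.q0 primef Pool.Agent.H684R3.Smo.h5 Pool.Agent.H684R3.Smo.t8)
      Pool.Agent.W878.SK.lowb bi2 d hd c hc hsq hnd
    refine ⟨α, δ, hα, hδ, fun m => ?_⟩
    obtain ⟨H₀, h0⟩ := h m
    refine ⟨H₀, fun H hH => ?_⟩
    have h1 := h0 H hH
    unfold hyp at h1
    rw [Finset.filter_filter] at h1
    exact h1

end Pool.Agent.Results.MP_8d13b5_lc.PrescribedZero
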